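import Pool.Agent.Helper30.EL.All

/-!
# Every large `n` has many `k < 2 n` such that `2 n + σ(k)` has at most five prime factors

`k = (s q) ^ 2` with primes `s ≤ (log n) ^ C₁` and `q`, so `2 n + σ(k) = 2 n + c (q ^ 2 + q + 1)`, `c = s ^ 2 + s + 1`, with the level of distribution
`n ^ (1/4 - ε)` by the Bombieri-Vinogradov theorem. For a single `c` the dimension of the sieve is unknown: the discriminant
`- c (3 c + 8 n)` is as large as the square of the range of `q`, and its real character could be biased on the small primes. For `K + 1` different `c` either two of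
the characters agree, and then their conductor is at most a power of `log n` (Siegel-Walfisz), or they are all different, and by
duality at most `K` of them are biased. So one `c` gives a sieve of dimension one, and Richert's weights apply.
-/

namespace Pool.Agent.Results.MP_2d2425_nt.EveryLargeN

open Finset ArithmeticFunction

open Classical in
/-- the integers `0 < k < 2 n` for which `2 n + σ(k)` has at most five prime factors (counted with multiplicity), all of
them at least `n ^ (1/25)` -/
noncomputable def ks (n : ℕ) : Finset ℕ := (Ico 1 (2 * n)).filter (fun k =>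
  (2 * n + sigma 1 k).primeFactorsList.length ≤ 5 ∧
  ∀ p : ℕ, p.Prime → p ∣ 2 * n + sigma 1 k → (n : ℝ) ^ (1 / 25 : ℝ) ≤ (p : ℝ))

/-- There are `C` and `n₀` such that for every `n ≥ n₀` the set `ks n` has at least `√n / (log n) ^ C` elements. -/
theorem result : ∃ C n₀ : ℕ, ∀ n : ℕ, n₀ ≤ n → √(n : ℝ) / Real.log n ^ C ≤ ((ks n).card : ℝ) :=
  Pool.Agent.Helper30.EL.pFIN

end Pool.Agent.Results.MP_2d2425_nt.EveryLargeN
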