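import Pool.Agent.Helper30.LK.All

/-!
# A lower bound for the least `k` with `2 n + σ(k)` prime

For infinitely many `n` there is no such `k ≤ c (log n) ^ 2 (log log n) ^ 4 / (log log log n) ^ 2`.

Only `k = m ^ 2` and `k = 2 m ^ 2` have `σ(k)` odd, and `3` divides `σ(2 m ^ 2)`. The number `2 n` is chosen modulo all odd primes `l ≤ x`:
`2 n ≡ 0` for `l = 3`, `l ≡ 1 (mod 3)` and small `l`, `2 n ≡ - 3` for the other `l ≤ x / 2`; a sieve of dimension three bounds the number
of the surviving `m`, which are removed one by one by the primes `l ∈ (x / 2, x]`.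
-/

namespace Pool.Agent.Results.MP_2d2425_nt.LeastKLower

open ArithmeticFunction

/-- There is `c > 0` such that for infinitely many `n` the number `2 n + σ(k)` is composite for all
`0 < k ≤ c (log n) ^ 2 (log log n) ^ 4 / (log log log n) ^ 2`. -/
theorem result : ∃ c : ℝ, 0 < c ∧ ∀ n₀ : ℕ, ∃ n : ℕ, n₀ ≤ n ∧ ∀ k : ℕ, 0 < k →
    (k : ℝ) ≤ c * (Real.log n ^ 2 * Real.log (Real.log n) ^ 4 / Real.log (Real.log (Real.log n)) ^ 2) →
    ¬ (2 * n + sigma 1 k).Prime :=
  Pool.Agent.Helper30.LK.pFN2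

end Pool.Agent.Results.MP_2d2425_nt.LeastKLower
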