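import Pool.Agent.Helper30.PB.All

/-!
# `2 n + σ(p ^ 2)` prime with `p` of size `log n log log n` for a positive proportion of the `n` in every progression

First moment: primes in a fixed arithmetic progression. Second moment: an upper bound sieve for two linear forms, averaged
over pairs of primes `p ≠ p'` (Brun-Titchmarsh), `σ(p ^ 2) - σ(p' ^ 2) = (p - p')(p + p' + 1)`. Cauchy-Schwarz.
-/

namespace Pool.Agent.Results.MP_2d2425_nt.PositiveProportion

open Finset ArithmeticFunction

/-- the primes `p ≤ K` for which `2 n + σ(p ^ 2)` is prime -/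
def ps (K n : ℕ) : Finset ℕ := (Icc 1 K).filter (fun p => p.Prime ∧ (2 * n + sigma 1 (p ^ 2)).Prime)

private lemma sig (p : ℕ) (hp : p.Prime) : sigma 1 (p ^ 2) = p ^ 2 + p + 1 := by
  rw [sigma_one_apply_prime_pow hp]
  simp [Finset.sum_range_succ]
  ring

/-- For every progression `a` modulo `Q` there are `c, C > 0` and `N₀` such that for all `N ≥ N₀` and all integers `K` with
`C log N log log N ≤ K ≤ √N / 4` at least `c N` of the integers `1 ≤ n ≤ N`, `n ≡ a (mod Q)`, have at least
`c K / (log K log N)` elements in `ps K n`. -/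
theorem result : ∀ Q a : ℕ, 1 ≤ Q → ∃ c C : ℝ, 0 < c ∧ 0 < C ∧ ∃ N₀ : ℕ, ∀ N : ℕ, N₀ ≤ N → ∀ K : ℕ,
    C * (Real.log N * Real.log (Real.log N)) ≤ K → 16 * K ^ 2 ≤ N →
      c * N ≤ (((Icc 1 N).filter (fun n : ℕ => n % Q = a % Q ∧
        c * (K / (Real.log K * Real.log N)) ≤ ((ps K n).card : ℝ))).card : ℝ) := by
  have h : ∀ K n : ℕ, ps K n = Pool.Agent.Helper30.PB.ps K n := by
    intro K n
    unfold ps Pool.Agent.Helper30.PB.ps
    refine filter_congr fun p _ => ?_
    constructor
    · rintro ⟨h1, h2⟩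
      exact ⟨h1, by rwa [sig p h1] at h2⟩
    · rintro ⟨h1, h2⟩
      exact ⟨h1, by rwa [sig p h1]⟩
  simp only [h]
  exact Pool.Agent.Helper30.PB.pFNP

end Pool.Agent.Results.MP_2d2425_nt.PositiveProportion
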