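import Pool.Agent.Helper9.SK.All

/-!
# Primes `2n + σ(k)` with `k < n^κ`, `κ > 2/5`, for almost all `n`
-/

set_option autoImplicit false

namespace Pool.Agent.Results.MP_2d2425_nt.SmallK

/-- Let `2/5 < κ < 1` and let `A` be a nonnegative integer. There is a constant `C` such that for all
`X ≥ 2` the number of `n` with `1 ≤ n ≤ X` for which fewer than `n^{κ/2}/(log n)^6` integers
`0 < k < n^κ` make `2n + σ(k)` a prime is at most `C X/(log X)^A`. -/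
theorem result (κ : ℝ) (A : ℕ) (hκ : 2 / 5 < κ) (hκ1 : κ < 1) :
    ∃ C : ℝ, ∀ X : ℕ, 2 ≤ X →
      ({n : ℕ | 1 ≤ n ∧ n ≤ X ∧ (({k : ℕ | 0 < k ∧ (k : ℝ) < (n : ℝ) ^ κ ∧
          (2 * n + ArithmeticFunction.sigma 1 k).Prime}.ncard : ℕ) : ℝ) <
        (n : ℝ) ^ (κ / 2) / Real.log n ^ 6}.ncard : ℝ) ≤ C * X / Real.log X ^ A :=
  Pool.Agent.Helper9.SK.fin κ A hκ hκ1

end Pool.Agent.Results.MP_2d2425_nt.SmallK
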